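import Mathlib

/-!
# Harmonic sums with the greatest powers of two
-/

set_option autoImplicit false

namespace Pool.Agent.U695.LG

open Finset

/-- the greatest power of two dividing `n` -/
def tp (n : ℕ) : ℕ := 2 ^ padicValNat 2 n

theorem tp_odd {n : ℕ} (h : Odd n) : tp n = 1 := by
  unfold tp
  rw [padicValNat.eq_zero_of_not_dvd (by rw [← even_iff_two_dvd]; exact Nat.not_even_iff_odd.2 h),
    pow_zero]

theorem tp_two {n : ℕ} (h : 0 < n) : tp (2 * n) = 2 * tp n := by
  unfold tp
  rw [padicValNat.mul (by norm_num) h.ne', padicValNat_self, pow_add, pow_one]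

theorem tp_mul_odd {n m : ℕ} (hn : Odd n) (hm : 0 < m) : tp (n * m) = tp m := by
  unfold tp
  rw [padicValNat.mul hn.pos.ne' hm.ne', padicValNat.eq_zero_of_not_dvd
    (by rw [← even_iff_two_dvd]; exact Nat.not_even_iff_odd.2 hn), zero_add]

/-- the harmonic sum -/
noncomputable def S1 (t : ℕ) : ℝ := ∑ j ∈ range t, 1 / ((j + 1 : ℕ) : ℝ)

/-- the harmonic sum with the powers of two -/
noncomputable def S2 (t : ℕ) : ℝ := ∑ j ∈ range t, (tp (j + 1) : ℝ) / ((j + 1 : ℕ) : ℝ)

theorem S1_le (t : ℕ) : S1 t ≤ 1 + Real.log t := by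
  have h := harmonic_le_one_add_log t
  have e : S1 t = ((harmonic t : ℚ) : ℝ) := by
    unfold S1 harmonic
    push_cast
    refine Finset.sum_congr rfl fun j _ => ?_
    rw [one_div]
  rw [e]
  exact h

theorem S1_nonneg (t : ℕ) : 0 ≤ S1 t := Finset.sum_nonneg fun j _ => by positivity

theorem S2_step (t : ℕ) : S2 t ≤ S1 t + S2 (t / 2) := by
  unfold S2
  rw [← Finset.sum_filter_add_sum_filter_not (range t) (fun j => Even j)]
  refine add_le_add ?_ ?_
  · have h1 : ∑ j ∈ (range t).filter (fun j => Even j), (tp (j + 1) : ℝ) / ((j + 1 : ℕ) : ℝ) =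
        ∑ j ∈ (range t).filter (fun j => Even j), 1 / ((j + 1 : ℕ) : ℝ) := by
      refine Finset.sum_congr rfl fun j hj => ?_
      rw [mem_filter] at hj
      rw [tp_odd hj.2.add_one, Nat.cast_one]
    rw [h1]
    exact Finset.sum_le_sum_of_subset_of_nonneg (Finset.filter_subset _ _)
      fun j _ _ => by positivity
  · have h2 : (range t).filter (fun j => ¬ Even j) = (range (t / 2)).image fun i => 2 * i + 1 := by
      ext j
      rw [mem_filter, mem_range, mem_image]
      constructor
      · rintro ⟨h1, h2⟩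
        obtain ⟨i, hi⟩ := Nat.not_even_iff_odd.1 h2
        exact ⟨i, mem_range.2 (by omega), hi.symm⟩
      · rintro ⟨i, hi, rfl⟩
        rw [mem_range] at hi
        refine ⟨by omega, ?_⟩
        rw [Nat.not_even_iff_odd]
        exact ⟨i, rfl⟩
    rw [h2, Finset.sum_image (fun a _ b _ h => by omega)]
    refine Finset.sum_le_sum fun i _ => le_of_eq ?_
    have e : 2 * i + 1 + 1 = 2 * (i + 1) := by ring
    rw [e, tp_two (Nat.succ_pos i)]
    push_cast
    have : (i : ℝ) + 1 ≠ 0 := by positivity
    field_simp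

theorem S2_le (t : ℕ) : S2 t ≤ (1 + Nat.log 2 t) * (1 + Real.log t) := by
  induction t using Nat.strong_induction_on with
  | _ t ih =>
    rcases Nat.lt_or_ge t 2 with h | h
    · interval_cases t
      · unfold S2
        simp
      · unfold S2
        rw [Finset.sum_range_one, zero_add, tp_odd odd_one]
        simp
    · have h1 := ih (t / 2) (by omega)
      have h2 := S2_step t
      have h3 := S1_le t
      have h4 : Nat.log 2 t = Nat.log 2 (t / 2) + 1 := by
        rw [Nat.log_div_base]
        have : 0 < Nat.log 2 t := Nat.log_pos (by norm_num) h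
        omega
      have h5 : Real.log ((t / 2 : ℕ) : ℝ) ≤ Real.log t := by
        apply Real.log_le_log
        · have : 0 < t / 2 := by omega
          exact_mod_cast this
        · exact_mod_cast Nat.div_le_self t 2
      have h6 : 0 ≤ Real.log ((t / 2 : ℕ) : ℝ) := Real.log_natCast_nonneg _
      have h7 : (0 : ℝ) ≤ Nat.log 2 (t / 2) := Nat.cast_nonneg _
      rw [h4]
      push_cast
      push_cast at h1 h5 h6
      nlinarith

end Pool.Agent.U695.LG
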