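import Pool.Agent.U695.LG.Cnt
import Pool.Agent.U695.LG.Har

/-!
# The mean of the bound for the orders of vanishing
-/

set_option autoImplicit false

namespace Pool.Agent.U695.LG

open Polynomial Finset
open scoped Classical

/-- the sum of the totients over the common divisors greater than one -/
theorem gcd_sub_one {m n : ℕ} (hn : 0 < n) :
    ((Nat.gcd m n - 1 : ℕ) : ℝ) =
      ∑ e ∈ n.divisors.erase 1, if e ∣ m then (Nat.totient e : ℝ) else 0 := by
  have hg : 0 < Nat.gcd m n := Nat.gcd_pos_of_pos_right _ hn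
  have h1 := Nat.sum_totient (Nat.gcd m n)
  have h2 : (Nat.gcd m n).divisors = n.divisors.filter (fun e => e ∣ m) := by
    ext e
    rw [Nat.mem_divisors, Finset.mem_filter, Nat.mem_divisors, Nat.dvd_gcd_iff]
    constructor
    · rintro ⟨⟨h1, h2⟩, -⟩
      exact ⟨⟨h2, hn.ne'⟩, h1⟩
    · rintro ⟨⟨h1, -⟩, h2⟩
      exact ⟨⟨h2, h1⟩, hg.ne'⟩
  rw [h2, Finset.sum_filter] at h1
  have h3 : 1 ∈ n.divisors := Nat.one_mem_divisors.2 hn.ne'
  rw [← Finset.add_sum_erase _ _ h3, if_pos (one_dvd m), Nat.totient_one] at h1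
  have h4 : Nat.gcd m n - 1 = ∑ e ∈ n.divisors.erase 1, if e ∣ m then Nat.totient e else 0 := by
    omega
  rw [h4]
  push_cast
  rfl

variable {k : Type} [Field k] [Finite k]

/-- the average of the bound -/
theorem mean_bound (hq : 3 ≤ Nat.card k) {n : ℕ} (hn : Odd n) (d : ℕ) (pf : k[X] → Finset k[X])
    (hpf : ∀ D ∈ Sf k d, ∀ P ∈ pf D, P.Monic ∧ Irreducible P ∧ P ∣ D) :
    ∑ D ∈ Sf k d, ((1 + ∑ P ∈ pf D, (Nat.gcd P.natDegree n - 1) * tp P.natDegree : ℕ) : ℝ) ≤
      (1 + 2 * ∑ e ∈ n.divisors.erase 1, (Nat.totient e : ℝ) / e * S2 (d / e)) *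
        ((Sf k d).card : ℝ) := by
  have hn0 : 0 < n := hn.pos
  set w : ℕ → ℕ → ℝ := fun e m => (if e ∣ m then (Nat.totient e : ℝ) else 0) * tp m with hw
  have h1 : ∀ D ∈ Sf k d, ((1 + ∑ P ∈ pf D, (Nat.gcd P.natDegree n - 1) * tp P.natDegree : ℕ) : ℝ) =
      1 + ∑ e ∈ n.divisors.erase 1, ∑ P ∈ pf D, w e P.natDegree := by
    intro D _
    rw [Finset.sum_comm]
    push_cast [Nat.cast_add, Nat.cast_one, Nat.cast_sum, Nat.cast_mul]
    congr 1
    refine Finset.sum_congr rfl fun P _ => ?_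
    rw [gcd_sub_one hn0, Finset.sum_mul]
  rw [Finset.sum_congr rfl h1, Finset.sum_add_distrib, Finset.sum_const, nsmul_eq_mul, mul_one,
    Finset.sum_comm, add_mul, one_mul]
  refine add_le_add le_rfl ?_
  rw [Finset.mul_sum, Finset.sum_mul]
  refine Finset.sum_le_sum fun e he => ?_
  rw [Finset.mem_erase, Nat.mem_divisors] at he
  have he0 : 0 < e := Nat.pos_of_dvd_of_pos he.2.1 hn0
  have heo : Odd e := Odd.of_dvd_nat hn he.2.1
  have h2 := mean_le hq he0 d (w e) (fun m => by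
      rw [hw]
      simp only
      split_ifs <;> positivity) (fun m hm => by
      rw [hw]
      simp only
      rw [if_neg hm, zero_mul]) pf hpf
  refine h2.trans (le_of_eq ?_)
  congr 2
  unfold S2
  rw [Finset.mul_sum]
  refine Finset.sum_congr rfl fun j _ => ?_
  rw [hw]
  simp only
  rw [if_pos (dvd_mul_right _ _), tp_mul_odd heo (Nat.succ_pos j)]
  push_cast
  have h3 : (e : ℝ) ≠ 0 := by exact_mod_cast he0.ne'
  have h4 : (j : ℝ) + 1 ≠ 0 := by positivity
  field_simp

/-- the proportion of the exceptions -/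
theorem few_bad (hq : 3 ≤ Nat.card k) {n : ℕ} (hn : Odd n) (d : ℕ) (pf : k[X] → Finset k[X])
    (hpf : ∀ D ∈ Sf k d, ∀ P ∈ pf D, P.Monic ∧ Irreducible P ∧ P ∣ D) :
    (((Sf k d).filter fun D =>
      2 ≤ 1 + ∑ P ∈ pf D, (Nat.gcd P.natDegree n - 1) * tp P.natDegree).card : ℝ) ≤
      (2 * ∑ p ∈ n.primeFactors, 1 / (p : ℝ) * S1 (d / p)) * ((Sf k d).card : ℝ) := by
  have hn0 : 0 < n := hn.pos
  set w : ℕ → ℕ → ℝ := fun e m => if e ∣ m then 1 else 0 with hw
  have h1 : ∀ D ∈ Sf k d, (if 2 ≤ 1 + ∑ P ∈ pf D, (Nat.gcd P.natDegree n - 1) * tp P.natDegree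
      then (1 : ℝ) else 0) ≤ ∑ p ∈ n.primeFactors, ∑ P ∈ pf D, w p P.natDegree := by
    intro D _
    have hnn : ∀ p P, 0 ≤ w p P := fun p P => by
      rw [hw]
      simp only
      split_ifs <;> norm_num
    split_ifs with h
    · have h2 : ∃ P ∈ pf D, Nat.gcd P.natDegree n ≠ 1 := by
        by_contra hno
        push Not at hno
        rw [Finset.sum_eq_zero fun P hP => by rw [hno P hP, Nat.sub_self, zero_mul]] at h
        omega
      obtain ⟨P, hP, hg⟩ := h2
      obtain ⟨p, hp, hpg⟩ := Nat.exists_prime_and_dvd hg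
      have hpn : p ∈ n.primeFactors :=
        Nat.mem_primeFactors.2 ⟨hp, hpg.trans (Nat.gcd_dvd_right _ _), hn0.ne'⟩
      have h3 : (1 : ℝ) = w p P.natDegree := by
        rw [hw]
        simp only
        rw [if_pos (hpg.trans (Nat.gcd_dvd_left _ _))]
      calc (1 : ℝ) = w p P.natDegree := h3
        _ ≤ ∑ P ∈ pf D, w p P.natDegree :=
            Finset.single_le_sum (f := fun P => w p P.natDegree) (fun P _ => hnn _ _) hP
        _ ≤ _ := Finset.single_le_sum (f := fun p => ∑ P ∈ pf D, w p P.natDegree)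
            (fun p _ => Finset.sum_nonneg fun P _ => hnn _ _) hpn
    · exact Finset.sum_nonneg fun p _ => Finset.sum_nonneg fun P _ => hnn _ _
  have h2 := Finset.sum_le_sum h1
  rw [← Finset.sum_filter, Finset.sum_const, nsmul_eq_mul, mul_one] at h2
  refine h2.trans ?_
  rw [Finset.sum_comm, Finset.mul_sum, Finset.sum_mul]
  refine Finset.sum_le_sum fun p hp => ?_
  have hp0 : 0 < p := (Nat.prime_of_mem_primeFactors hp).pos
  have h3 := mean_le hq hp0 d (w p) (fun m => by
      rw [hw]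
      simp only
      split_ifs <;> norm_num) (fun m hm => by
      rw [hw]
      simp only
      rw [if_neg hm]) pf hpf
  refine h3.trans (le_of_eq ?_)
  congr 2
  unfold S1
  rw [Finset.mul_sum]
  refine Finset.sum_congr rfl fun j _ => ?_
  rw [hw]
  simp only
  rw [if_pos (dvd_mul_right _ _)]
  push_cast
  have h3 : (p : ℝ) ≠ 0 := by exact_mod_cast hp0.ne'
  have h4 : (j : ℝ) + 1 ≠ 0 := by positivity
  field_simp

theorem three_le (h2 : (2 : k) ≠ 0) : 3 ≤ Nat.card k := by
  have h1 : 1 < Nat.card k := Finite.one_lt_card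
  by_contra h
  have h3 : Nat.card k = 2 := by omega
  apply h2
  have := Fintype.ofFinite k
  have h4 : ((Fintype.card k : ℕ) : k) = 0 := Nat.cast_card_eq_zero k
  rw [← Nat.card_eq_fintype_card, h3] at h4
  exact_mod_cast h4

end Pool.Agent.U695.LG
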