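import Mathlib

/-!
# Counting squarefree polynomials over a finite field with weights on their prime factors
-/

set_option autoImplicit false

namespace Pool.Agent.U695.LG

open Polynomial Finset
open scoped Classical

variable (k : Type) [Field k] [Finite k]

/-- the monic polynomials of degree `d` -/
def MN (d : ℕ) : Set k[X] := {g | g.Monic ∧ g.natDegree = d}

theorem mn_card (d : ℕ) : Nat.card (MN k d) = Nat.card k ^ d := by
  have h1 : Nat.card (MN k d) = Nat.card (degreeLT k d) :=
    Nat.card_congr (monicEquivDegreeLT (R := k) d)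
  rw [h1, Nat.card_congr (degreeLTEquiv k d).toEquiv, Nat.card_fun]
  simp

theorem mn_fin (d : ℕ) : (MN k d).Finite := by
  have h : 0 < Nat.card k := Nat.card_pos
  have h1 : Nat.card (MN k d) ≠ 0 := by rw [mn_card]; positivity
  exact Nat.finite_of_card_ne_zero h1

/-- the monic polynomials of degree `d`, as a finite set -/
noncomputable def Mn (d : ℕ) : Finset k[X] := (mn_fin k d).toFinset

variable {k}

theorem mem_Mn {d : ℕ} {g : k[X]} : g ∈ Mn k d ↔ g.Monic ∧ g.natDegree = d := by
  unfold Mn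
  rw [Set.Finite.mem_toFinset]
  rfl

variable (k) in
theorem card_Mn (d : ℕ) : (Mn k d).card = Nat.card k ^ d := by
  rw [← mn_card k d, Mn, ← Set.ncard_eq_toFinset_card _ (mn_fin k d)]
  rfl

variable (k) in
/-- the monic irreducible polynomials of degree `m` -/
noncomputable def Pm (m : ℕ) : Finset k[X] := (Mn k m).filter Irreducible

theorem mem_Pm {m : ℕ} {P : k[X]} : P ∈ Pm k m ↔ P.Monic ∧ P.natDegree = m ∧ Irreducible P := by
  unfold Pm
  rw [Finset.mem_filter, mem_Mn, and_assoc]

variable (k) in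
/-- `m π(m) ≤ q ^ m` -/
theorem card_Pm {m : ℕ} (hm : 0 < m) : m * (Pm k m).card ≤ Nat.card k ^ m := by
  have hq : 1 < Nat.card k := Finite.one_lt_card
  have h1 : (∏ P ∈ Pm k m, P) ∣ X ^ (Nat.card k) ^ m - X := by
    refine Finset.prod_dvd_of_coprime ?_ ?_
    · intro P hP Q hQ hne
      have hP' := mem_Pm.1 (Finset.mem_coe.1 hP)
      have hQ' := mem_Pm.1 (Finset.mem_coe.1 hQ)
      refine (hP'.2.2.coprime_iff_not_dvd).2 fun h => hne ?_
      exact eq_of_monic_of_associated hP'.1 hQ'.1 (hP'.2.2.associated_of_dvd hQ'.2.2 h)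
    · intro P hP
      have hP' := mem_Pm.1 hP
      exact (hP'.2.2.natDegree_dvd_iff_dvd_X_pow_card_pow_sub_X).1 (by rw [hP'.2.1])
  have h0 : (X ^ (Nat.card k) ^ m - X : k[X]) ≠ 0 :=
    FiniteField.X_pow_card_pow_sub_X_ne_zero _ hm.ne' hq
  have h2 := natDegree_le_of_dvd h1 h0
  rw [FiniteField.X_pow_card_pow_sub_X_natDegree_eq _ hm.ne' hq, natDegree_prod_of_monic] at h2
  · have h3 : ∑ P ∈ Pm k m, P.natDegree = m * (Pm k m).card := by
      rw [Finset.sum_congr rfl fun P hP => (mem_Pm.1 hP).2.1, Finset.sum_const, smul_eq_mul,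
        mul_comm]
    rwa [h3] at h2
  · intro P hP
    exact (mem_Pm.1 hP).1

/-- the number of multiples -/
theorem card_mult {P : k[X]} (hP : P.Monic) {d : ℕ} (hd : P.natDegree ≤ d) :
    ((Mn k d).filter fun g => P ∣ g).card ≤ Nat.card k ^ (d - P.natDegree) := by
  rw [← card_Mn k (d - P.natDegree)]
  refine (Finset.card_le_card fun g hg => ?_).trans
    (Finset.card_image_le (s := Mn k (d - P.natDegree)) (f := fun h => P * h))
  rw [Finset.mem_filter, mem_Mn] at hg
  obtain ⟨⟨h1, h2⟩, h, rfl⟩ := hg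
  have hm : h.Monic := hP.of_mul_monic_left h1
  rw [Finset.mem_image]
  refine ⟨h, mem_Mn.2 ⟨hm, ?_⟩, rfl⟩
  rw [hP.natDegree_mul hm] at h2
  omega

variable (k) in
/-- the monic squarefree polynomials of degree `d` -/
noncomputable def Sf (d : ℕ) : Finset k[X] := (Mn k d).filter Squarefree

theorem mem_Sf {d : ℕ} {g : k[X]} : g ∈ Sf k d ↔ g.Monic ∧ g.natDegree = d ∧ Squarefree g := by
  unfold Sf
  rw [Finset.mem_filter, mem_Mn, and_assoc]

/-- a sum over the degrees -/
theorem geom_half {q : ℕ} (hq : 3 ≤ q) (n : ℕ) :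
    ∑ m ∈ Finset.range n, (1 / (q : ℝ)) ^ (m + 1) ≤ 1 / 2 := by
  have hq' : (3 : ℝ) ≤ q := by exact_mod_cast hq
  have h1 : ∀ n : ℕ, ∑ m ∈ Finset.range n, (1 / (3 : ℝ)) ^ (m + 1) ≤ 1 / 2 * (1 - (1 / 3) ^ n) := by
    intro n
    induction n with
    | zero => simp
    | succ n ih =>
      rw [Finset.sum_range_succ]
      have : (1 / 3 : ℝ) ^ (n + 1) = (1 / 3) ^ n * (1 / 3) := pow_succ _ _
      rw [this]
      linarith
  have h2 : ∑ m ∈ Finset.range n, (1 / (q : ℝ)) ^ (m + 1) ≤
      ∑ m ∈ Finset.range n, (1 / (3 : ℝ)) ^ (m + 1) := Finset.sum_le_sum fun m _ =>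
    pow_le_pow_left₀ (by positivity) (one_div_le_one_div_of_le (by norm_num) hq') _
  have h3 : (0 : ℝ) < (1 / 3) ^ n := by positivity
  have h4 := h1 n
  linarith

variable (k) in
/-- half of the polynomials are squarefree -/
theorem card_Sf (hq : 3 ≤ Nat.card k) (d : ℕ) :
    (Nat.card k : ℝ) ^ d / 2 ≤ ((Sf k d).card : ℝ) := by
  have hq0 : (0 : ℝ) < (Nat.card k : ℝ) := by exact_mod_cast (by omega : 0 < Nat.card k)
  have h1 : (Mn k d).card ≤ (Sf k d).card +
      ∑ m ∈ Finset.range d, ∑ P ∈ Pm k (m + 1), ((Mn k d).filter fun g => P * P ∣ g).card := by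
    have h2 : Mn k d ⊆ Sf k d ∪ (Finset.range d).biUnion fun m => (Pm k (m + 1)).biUnion fun P =>
        (Mn k d).filter fun g => P * P ∣ g := by
      intro g hg
      rw [Finset.mem_union]
      by_cases hs : Squarefree g
      · left
        have := mem_Mn.1 hg
        exact mem_Sf.2 ⟨this.1, this.2, hs⟩
      · right
        have hg' := mem_Mn.1 hg
        have hg0 : g ≠ 0 := hg'.1.ne_zero
        unfold Squarefree at hs
        push Not at hs
        obtain ⟨x, hx1, hx2⟩ := hs
        have hx0 : x ≠ 0 := by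
          rintro rfl
          rw [zero_mul, zero_dvd_iff] at hx1
          exact hg0 hx1
        obtain ⟨Q, hQ, hQx⟩ := WfDvdMonoid.exists_irreducible_factor hx2 hx0
        have hQn : Irreducible (normalize Q) := (associated_normalize Q).irreducible hQ
        have hQm : (normalize Q).Monic := monic_normalize hQ.ne_zero
        have hQg : normalize Q * normalize Q ∣ g := by
          refine dvd_trans ?_ hx1
          exact mul_dvd_mul ((normalize_dvd_iff).2 hQx) ((normalize_dvd_iff).2 hQx)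
        have hdeg : 0 < (normalize Q).natDegree := hQn.natDegree_pos
        have hle := natDegree_le_of_dvd hQg hg0
        rw [hQm.natDegree_mul hQm, hg'.2] at hle
        rw [Finset.mem_biUnion]
        refine ⟨(normalize Q).natDegree - 1, Finset.mem_range.2 (by omega), ?_⟩
        rw [Finset.mem_biUnion]
        refine ⟨normalize Q, mem_Pm.2 ⟨hQm, by omega, hQn⟩, ?_⟩
        rw [Finset.mem_filter]
        exact ⟨hg, hQg⟩
    refine (Finset.card_le_card h2).trans ((Finset.card_union_le _ _).trans ?_)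
    refine Nat.add_le_add_left (Finset.card_biUnion_le.trans ?_) _
    exact Finset.sum_le_sum fun m _ => Finset.card_biUnion_le
  have h3 : ∀ m ∈ Finset.range d, (∑ P ∈ Pm k (m + 1),
      (((Mn k d).filter fun g => P * P ∣ g).card : ℝ)) ≤
      (Nat.card k : ℝ) ^ d * (1 / (Nat.card k : ℝ)) ^ (m + 1) := by
    intro m hm
    by_cases h2m : 2 * (m + 1) ≤ d
    · have h4 : ∀ P ∈ Pm k (m + 1), (((Mn k d).filter fun g => P * P ∣ g).card : ℝ) ≤
          (Nat.card k : ℝ) ^ (d - 2 * (m + 1)) := by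
        intro P hP
        have hP' := mem_Pm.1 hP
        have hdd : (P * P).natDegree = 2 * (m + 1) := by
          rw [hP'.1.natDegree_mul hP'.1, hP'.2.1]; ring
        have := card_mult (hP'.1.mul hP'.1) (d := d) (by rw [hdd]; exact h2m)
        rw [hdd] at this
        exact_mod_cast this
      refine (Finset.sum_le_sum h4).trans ?_
      rw [Finset.sum_const, nsmul_eq_mul]
      have h5 : ((Pm k (m + 1)).card : ℝ) ≤ (Nat.card k : ℝ) ^ (m + 1) := by
        have h6 := card_Pm k (Nat.succ_pos m)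
        have h7 : (Pm k (m + 1)).card ≤ Nat.card k ^ (m + 1) :=
          (Nat.le_mul_of_pos_left _ (Nat.succ_pos m)).trans h6
        exact_mod_cast h7
      have h8 : (Nat.card k : ℝ) ^ d = (Nat.card k : ℝ) ^ (m + 1) * ((Nat.card k : ℝ) ^ (m + 1) *
          (Nat.card k : ℝ) ^ (d - 2 * (m + 1))) := by
        rw [← pow_add, ← pow_add]
        congr 1
        omega
      have h9 : (Nat.card k : ℝ) ^ d * (1 / (Nat.card k : ℝ)) ^ (m + 1) =
          (Nat.card k : ℝ) ^ (m + 1) * (Nat.card k : ℝ) ^ (d - 2 * (m + 1)) := by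
        rw [h8, one_div, inv_pow]
        field_simp
      rw [h9]
      exact mul_le_mul_of_nonneg_right h5 (by positivity)
    · have h4 : ∀ P ∈ Pm k (m + 1), (((Mn k d).filter fun g => P * P ∣ g).card : ℝ) = 0 := by
        intro P hP
        have hP' := mem_Pm.1 hP
        have hdd : (P * P).natDegree = 2 * (m + 1) := by
          rw [hP'.1.natDegree_mul hP'.1, hP'.2.1]; ring
        have : ((Mn k d).filter fun g => P * P ∣ g) = ∅ := by
          rw [Finset.filter_eq_empty_iff]
          intro g hg hd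
          have hg' := mem_Mn.1 hg
          have hle := natDegree_le_of_dvd hd hg'.1.ne_zero
          rw [hdd, hg'.2] at hle
          exact h2m hle
        rw [this, Finset.card_empty, Nat.cast_zero]
      rw [Finset.sum_eq_zero h4]
      positivity
  have h4 : ((Mn k d).card : ℝ) ≤ ((Sf k d).card : ℝ) +
      ∑ m ∈ Finset.range d, ∑ P ∈ Pm k (m + 1), (((Mn k d).filter fun g => P * P ∣ g).card : ℝ) := by
    exact_mod_cast h1
  have h5 := h4.trans (add_le_add_right (Finset.sum_le_sum h3) _)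
  rw [← Finset.mul_sum, card_Mn] at h5
  have h6 := geom_half hq d
  have h7 : (Nat.card k : ℝ) ^ d * ∑ m ∈ Finset.range d, (1 / (Nat.card k : ℝ)) ^ (m + 1) ≤
      (Nat.card k : ℝ) ^ d * (1 / 2) := mul_le_mul_of_nonneg_left h6 (by positivity)
  push_cast at h5
  linarith

/-- **The mean of a sum over the prime factors.** Only the prime factors with degree divisible by
`n` have a positive weight. -/
theorem mean_le (hq : 3 ≤ Nat.card k) {n : ℕ} (hn : 0 < n) (d : ℕ) (w : ℕ → ℝ) (hw : ∀ m, 0 ≤ w m)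
    (hw0 : ∀ m, ¬ n ∣ m → w m = 0) (pf : k[X] → Finset k[X])
    (hpf : ∀ D ∈ Sf k d, ∀ P ∈ pf D, P.Monic ∧ Irreducible P ∧ P ∣ D) :
    ∑ D ∈ Sf k d, ∑ P ∈ pf D, w P.natDegree ≤
      2 * (∑ j ∈ Finset.range (d / n), w (n * (j + 1)) / (n * (j + 1) : ℕ)) *
        ((Sf k d).card : ℝ) := by
  have hq0 : (0 : ℝ) < (Nat.card k : ℝ) := by exact_mod_cast (by omega : 0 < Nat.card k)
  -- the inner sum
  have h1 : ∀ D ∈ Sf k d, ∑ P ∈ pf D, w P.natDegree ≤
      ∑ j ∈ Finset.range (d / n), ∑ P ∈ Pm k (n * (j + 1)), if P ∣ D then w (n * (j + 1)) else 0 := by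
    intro D hD
    have hD' := mem_Sf.1 hD
    have h2 : ∑ P ∈ pf D, w P.natDegree =
        ∑ P ∈ (pf D).filter (fun P => n ∣ P.natDegree), w P.natDegree := by
      rw [Finset.sum_filter]
      refine Finset.sum_congr rfl fun P _ => ?_
      split_ifs with h
      · rfl
      · exact hw0 _ h
    have h3 : ∑ j ∈ Finset.range (d / n), ∑ P ∈ Pm k (n * (j + 1)),
        (if P ∣ D then w (n * (j + 1)) else 0) =
        ∑ P ∈ (Finset.range (d / n)).biUnion (fun j => (Pm k (n * (j + 1))).filter fun P => P ∣ D),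
          w P.natDegree := by
      rw [Finset.sum_biUnion]
      · refine Finset.sum_congr rfl fun j _ => ?_
        rw [Finset.sum_filter]
        refine Finset.sum_congr rfl fun P hP => ?_
        rw [(mem_Pm.1 hP).2.1]
      · intro i _ j _ hij
        rw [Function.onFun, Finset.disjoint_left]
        intro P hP1 hP2
        rw [Finset.mem_filter] at hP1 hP2
        have e1 := (mem_Pm.1 hP1.1).2.1
        have e2 := (mem_Pm.1 hP2.1).2.1
        rw [e1] at e2
        have := Nat.eq_of_mul_eq_mul_left hn e2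
        omega
    rw [h2, h3]
    refine Finset.sum_le_sum_of_subset_of_nonneg ?_ fun P _ _ => hw _
    intro P hP
    rw [Finset.mem_filter] at hP
    obtain ⟨hP1, c, hc⟩ := hP
    obtain ⟨e1, e2, e3⟩ := hpf D hD P hP1
    have e4 := natDegree_le_of_dvd e3 hD'.1.ne_zero
    have e5 := e2.natDegree_pos
    have hc0 : 0 < c := by
      rcases Nat.eq_zero_or_pos c with h | h
      · rw [h, mul_zero] at hc; omega
      · exact h
    rw [Finset.mem_biUnion]
    refine ⟨c - 1, Finset.mem_range.2 ?_, ?_⟩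
    · have : c ≤ d / n := by
        rw [Nat.le_div_iff_mul_le hn, mul_comm, ← hc, ← hD'.2.1]
        exact e4
      omega
    · rw [Finset.mem_filter, mem_Pm]
      refine ⟨⟨e1, ?_, e2⟩, e3⟩
      rw [hc]
      congr 1
      omega
  refine (Finset.sum_le_sum h1).trans ?_
  rw [Finset.sum_comm, Finset.mul_sum, Finset.sum_mul]
  refine Finset.sum_le_sum fun j hj => ?_
  rw [Finset.sum_comm]
  set m := n * (j + 1) with hm
  have hm0 : 0 < m := Nat.mul_pos hn (Nat.succ_pos j)
  have hmd : m ≤ d := by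
    rw [Finset.mem_range] at hj
    calc m = (j + 1) * n := by rw [hm]; ring
      _ ≤ (d / n) * n := Nat.mul_le_mul_right _ (by omega)
      _ ≤ d := Nat.div_mul_le_self d n
  have h2 : ∀ P ∈ Pm k m, ∑ D ∈ Sf k d, (if P ∣ D then w m else 0) ≤
      w m * (Nat.card k : ℝ) ^ (d - m) := by
    intro P hP
    have hP' := mem_Pm.1 hP
    rw [← Finset.sum_filter, Finset.sum_const, nsmul_eq_mul, mul_comm]
    refine mul_le_mul_of_nonneg_left ?_ (hw m)
    have h3 : ((Sf k d).filter fun D => P ∣ D).card ≤ ((Mn k d).filter fun D => P ∣ D).card :=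
      Finset.card_le_card (Finset.filter_subset_filter _ (Finset.filter_subset _ _))
    have h4 := h3.trans (card_mult hP'.1 (by rw [hP'.2.1]; exact hmd))
    rw [hP'.2.1] at h4
    exact_mod_cast h4
  refine (Finset.sum_le_sum h2).trans ?_
  rw [Finset.sum_const, nsmul_eq_mul]
  have h5 : ((Pm k m).card : ℝ) ≤ (Nat.card k : ℝ) ^ m / m := by
    rw [le_div_iff₀ (by exact_mod_cast hm0), mul_comm]
    exact_mod_cast card_Pm k hm0
  have h6 := card_Sf k hq d
  have h7 : (Nat.card k : ℝ) ^ d = (Nat.card k : ℝ) ^ m * (Nat.card k : ℝ) ^ (d - m) := by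
    rw [← pow_add]
    congr 1
    omega
  have hm1 : (0 : ℝ) < (m : ℕ) := by exact_mod_cast hm0
  calc ((Pm k m).card : ℝ) * (w m * (Nat.card k : ℝ) ^ (d - m)) ≤
        ((Nat.card k : ℝ) ^ m / m) * (w m * (Nat.card k : ℝ) ^ (d - m)) :=
        mul_le_mul_of_nonneg_right h5 (mul_nonneg (hw m) (by positivity))
    _ = (w m / m) * ((Nat.card k : ℝ) ^ d) := by rw [h7]; field_simp
    _ ≤ (w m / m) * (2 * ((Sf k d).card : ℝ)) := by
        refine mul_le_mul_of_nonneg_left ?_ (div_nonneg (hw m) hm1.le)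
        linarith
    _ = 2 * (w m / (m : ℕ)) * ((Sf k d).card : ℝ) := by ring

end Pool.Agent.U695.LG
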